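import Pool.Agent.H60R2.SF.AlgMain
import Pool.Agent.H60R2.SF.VNA
import Pool.Agent.H60R2.SF.PosTrace

/-!
Question 2 of MP_f5ca18_al in full: the set `I` of the Jones indices of the finite depth inclusions
`N ⊂ M` of `II₁` factors has no accumulation point from above. It is proved by showing that every
number in `I` is the house of a cyclotomic integer.
-/

set_option autoImplicit false

namespace Pool.Agent.Results.MP_f5ca18_al.SubfactorIndices

open Pool.Agent.H60R2.SF
open Pool.Agent.Helper781.CycHouse (IsHouse house_gap)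

universe u

section

variable {R A : Type u} [CStarAlgebra R] [Ring A] [StarRing A] [Algebra ℂ A]

/-- The algebraic data of a finite index inclusion with a trace. -/
noncomputable def toTD {φ : R →⋆ₐ[ℂ] A} {d : ℝ} {τ : A →ₗ[ℂ] ℂ} {E : A →ₗ[ℂ] R}
    (hτ : IsTracialState τ) (hE : IsCondExp φ τ E) (n : ℕ) (m : Fin n → A)
    (h1 : ∀ x, ∑ i, m i * φ (E (star (m i) * x)) = x)
    (h2 : ∑ i, m i * star (m i) = algebraMap ℂ A d) : TD φ.toAlgHom d where
  E := E
  E_left := hE.left
  E_right := fun a s => hE.right a s
  n := n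
  u := m
  v := fun i => star (m i)
  left := h1
  right := by
    intro x
    have h := congrArg star (h1 (star x))
    rw [star_star, star_sum] at h
    refine Eq.trans (Finset.sum_congr rfl fun i _ => ?_) h
    rw [star_mul, ← map_star, ← hE.star, star_mul, star_star, star_star]
    rfl
  E_one := by
    have := hE.id 1
    rwa [map_one] at this
  index := h2
  τ := τ ∘ₗ φ.toAlgHom.toLinearMap
  τ_one := by
    change τ (φ 1) = 1
    rw [map_one, hτ.one]
  τ_comm := by
    intro a b
    change τ (φ (a * b)) = τ (φ (b * a))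
    rw [map_mul φ a b, map_mul φ b a, hτ.comm]
  τE_comm := by
    intro a b
    change τ (φ (E (a * b))) = τ (φ (E (b * a)))
    rw [hE.trace, hE.trace, hτ.comm]
  pos := by
    intro ι _ e he
    refine pos_trace (τ ∘ₗ φ.toAlgHom.toLinearMap) ?_ ?_ ι e he
    · intro a b
      change τ (φ (a * b)) = τ (φ (b * a))
      rw [map_mul φ a b, map_mul φ b a, hτ.comm]
    · intro a
      obtain ⟨b, hb, h⟩ := hτ.nonneg (φ a)
      refine ⟨b, hb, ?_⟩
      change τ (φ (star a * a)) = b
      rw [map_mul φ, map_star φ, h]

/-- The index of a finite depth inclusion of a `C*`-algebra with trivial center is the house of a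
cyclotomic integer. -/
theorem house_of_cstar {φ : R →⋆ₐ[ℂ] A} {d : ℝ} [Nontrivial R] (hR : TrivialCenter R)
    (hfd : FiniteDepth φ.toAlgHom) (hd : IsJonesIndex φ d) : IsHouse d := by
  obtain ⟨τ, E, hτ, hE, n, m, h1, h2⟩ := hd
  exact house_of_ext (toTD hτ hE n m h1 h2) hR hfd

end

/-- A von Neumann algebra is closed in the norm topology. -/
lemma isClosed_vna {H : Type u} [NormedAddCommGroup H] [InnerProductSpace ℂ H] [CompleteSpace H]
    (N : VonNeumannAlgebra H) : IsClosed (N.toStarSubalgebra : Set (H →L[ℂ] H)) := by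
  have h : (N.toStarSubalgebra : Set (H →L[ℂ] H)) =
      Set.centralizer (Set.centralizer (N : Set (H →L[ℂ] H))) :=
    (N.centralizer_centralizer).symm
  rw [h]
  exact Set.isClosed_centralizer _

/-- The index of a finite depth subfactor is the house of a cyclotomic integer. -/
theorem house_of_mem_indices {d : ℝ} (hd : d ∈ indices.{u}) : IsHouse d := by
  obtain ⟨H, _, _, _, N, M, h, ⟨hN, hNinf, -⟩, -, hfd, hidx⟩ := hd
  have : IsClosed (N.toStarSubalgebra : Set (H →L[ℂ] H)) := isClosed_vna N
  have : Nontrivial N.toStarSubalgebra := by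
    by_contra hn
    rw [not_nontrivial_iff_subsingleton] at hn
    exact hNinf inferInstance
  exact house_of_cstar (R := N.toStarSubalgebra) (φ := StarSubalgebra.inclusion h) hN hfd hidx

/-- **The set of the indices of finite depth subfactors has no accumulation point from above.** -/
theorem result (a : ℝ) : ∃ ε > 0, ∀ d ∈ indices.{u}, ¬ (a < d ∧ d < a + ε) := by
  obtain ⟨ε, hε, h⟩ := house_gap a
  exact ⟨ε, hε, fun d hd => h d (house_of_mem_indices hd)⟩

end Pool.Agent.Results.MP_f5ca18_al.SubfactorIndices
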